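import Pool.Agent.H28.Dav.Link

/-!
The degree-2 Davenport constant of `ℤ/3^k` equals `3^k` for every `k ≥ 2`.
-/

set_option autoImplicit false

namespace Pool.Agent.Results.MP_98e62b_co.PowersOfThree

open H28Dav

/-- For every `k ≥ 2` the degree-2 Davenport constant of `ℤ/3^k` equals `3^k`. -/
theorem result (k : ℕ) (hk : 2 ≤ k) : dav (3 ^ k) = 3 ^ k := by
  refine le_antisymm (dav_le (by positivity) fun S hS => upper_bound_three hk S hS) ?_
  exact ones_bound Nat.prime_three (by norm_num) hk

end Pool.Agent.Results.MP_98e62b_co.PowersOfThree
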