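import Pool.Agent.H28.Dav.Link

/-!
Bounds for the degree-2 Davenport constant of `ℤ/p^k`, `p` an odd prime, `k ≥ 2`.
-/

set_option autoImplicit false

namespace Pool.Agent.Results.MP_98e62b_co.PrimePowerBounds

open H28Dav

/-- For every odd prime `p` and every `k ≥ 2` the degree-2 Davenport constant of `ℤ/p^k` lies between `p^k` and
`p^k + p - 1`. -/
theorem result (p k : ℕ) (hp : p.Prime) (hp2 : p ≠ 2) (hk : 2 ≤ k) :
    p ^ k ≤ dav (p ^ k) ∧ dav (p ^ k) ≤ p ^ k + p - 1 := by
  refine ⟨ones_bound hp hp2 hk, dav_le ?_ fun S hS => upper_bound hp hp2 (by omega) S hS⟩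
  have := hp.two_le
  omega

end Pool.Agent.Results.MP_98e62b_co.PrimePowerBounds
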