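import Pool.Agent.H28.Dav.Link

/-!
Prime powers `n = p^k`, `k ≥ 2`, for which the degree-2 Davenport constant is greater than `n`.
-/

set_option autoImplicit false

namespace Pool.Agent.Results.MP_98e62b_co.PrimePowerExcess

open H28Dav

/-- Let `p` be an odd prime and let `c ≥ 1`, `t` be natural numbers, `p ∤ c`, such that none of the numbers
`1 + i (c² - 1)`, `2 ≤ i ≤ t`, is a square modulo `p²`. Then for every `k ≥ 2` the degree-2 Davenport constant of
`ℤ/p^k` is at least `p^k + t - c`. For `c = 2` this gives (because `7` and `10`, for the first three primes also `13`,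
are not squares modulo `p²`) that it is at least `p^k + 2` for `p = 5, 7, 11` and at least `p^k + 1` for `p = 17, 23`;
for `c = 4` (numbers `31, 46, 61, 76`) it is at least `p^k + 1` for `p = 29`. -/
theorem result :
    (∀ p k c t : ℕ, p.Prime → p ≠ 2 → 2 ≤ k → ¬ p ∣ c → 1 ≤ c →
      (∀ i, 2 ≤ i → i ≤ t → ¬ IsSquare ((1 + i * (c ^ 2 - 1) : ℕ) : ZMod (p ^ 2))) →
      p ^ k + t ≤ dav (p ^ k) + c) ∧
    (∀ k : ℕ, 2 ≤ k → 5 ^ k + 2 ≤ dav (5 ^ k) ∧ 7 ^ k + 2 ≤ dav (7 ^ k) ∧ 11 ^ k + 2 ≤ dav (11 ^ k) ∧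
      17 ^ k + 1 ≤ dav (17 ^ k) ∧ 23 ^ k + 1 ≤ dav (23 ^ k) ∧ 29 ^ k + 1 ≤ dav (29 ^ k)) := by
  have h2 : ∀ p k : ℕ, p.Prime → p ≠ 2 → 2 ≤ k → ¬ IsSquare (7 : ZMod (p ^ 2)) → ¬ IsSquare (10 : ZMod (p ^ 2)) →
      p ^ k < dav (p ^ k) := by
    intro p k hp hp2 hk h7 h10
    have h := family_bound (t := 3) (c := 2) hp hp2 hk (fun h => hp2 ((Nat.prime_dvd_prime_iff_eq hp Nat.prime_two).1 h))
      (by norm_num) (by
        intro i hi1 hi2
        interval_cases i
        · simpa using h7
        · simpa using h10)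
    omega
  have h4 : ∀ p k : ℕ, p.Prime → p ≠ 2 → 2 ≤ k → ¬ IsSquare (7 : ZMod (p ^ 2)) → ¬ IsSquare (10 : ZMod (p ^ 2)) →
      ¬ IsSquare (13 : ZMod (p ^ 2)) → p ^ k + 2 ≤ dav (p ^ k) := by
    intro p k hp hp2 hk h7 h10 h13
    have h := family_bound (t := 4) (c := 2) hp hp2 hk (fun h => hp2 ((Nat.prime_dvd_prime_iff_eq hp Nat.prime_two).1 h))
      (by norm_num) (by
        intro i hi1 hi2
        interval_cases i
        · simpa using h7
        · simpa using h10
        · simpa using h13)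
    omega
  refine ⟨fun p k c t hp hp2 hk hc hc0 hns => family_bound hp hp2 hk hc hc0 hns, fun k hk => ⟨?_, ?_, ?_, ?_, ?_, ?_⟩⟩
  · exact h4 5 k (by norm_num) (by norm_num) hk (by decide) (by decide) (by decide)
  · exact h4 7 k (by norm_num) (by norm_num) hk (by decide +kernel) (by decide +kernel) (by decide +kernel)
  · exact h4 11 k (by norm_num) (by norm_num) hk (by decide +kernel) (by decide +kernel) (by decide +kernel)
  · exact h2 17 k (by norm_num) (by norm_num) hk (by decide +kernel) (by decide +kernel)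
  · exact h2 23 k (by norm_num) (by norm_num) hk (by decide +kernel) (by decide +kernel)
  · have h := family_bound (p := 29) (k := k) (t := 5) (c := 4) (by norm_num) (by norm_num) hk (by norm_num)
      (by norm_num) (by
        intro i hi1 hi2
        interval_cases i <;> decide +kernel)
    omega

end Pool.Agent.Results.MP_98e62b_co.PrimePowerExcess
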